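import Pool.Agent.H12.Cell

namespace Pool.Agent.Results.MP_794bd6_an.Counter

open MeasureTheory Filter Topology Real
open scoped ContDiff ENNReal

/-- the torus `(ℝ / 2πℤ)²` -/
abbrev Torus : Type := AddCircle (2 * π) × AddCircle (2 * π)

/-- the covering map `ℝ² → Torus` -/
noncomputable def proj (p : ℝ × ℝ) : Torus := (p.1, p.2)

/-- `F` is a real-analytic lift of `f` -/
def IsLift (f : Torus → Torus) (F : ℝ × ℝ → ℝ × ℝ) : Prop :=
  ContDiff ℝ ω F ∧ ∀ p, f (proj p) = proj (F p)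

/-- Shannon entropy of the join of `Q, f⁻¹ Q, …, f^{-(n-1)} Q` for a finite partition `Q` -/
noncomputable def blockEntropy (ρ : Measure Torus) (f : Torus → Torus) {m : ℕ}
    (Q : Torus → Fin m) (n : ℕ) : ℝ :=
  ∑ w : Fin n → Fin m, negMulLog (ρ.real {x | ∀ i : Fin n, Q (f^[i] x) = w i})

/-- Kolmogorov-Sinai entropy -/
noncomputable def entropy (ρ : Measure Torus) (f : Torus → Torus) : ℝ≥0∞ :=
  ⨆ (m : ℕ) (Q : Torus → Fin m) (_ : Measurable Q),
    limsup (fun n : ℕ => ENNReal.ofReal (blockEntropy ρ f Q n / n)) atTop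

/-- norm of the map induced by `A` on the exterior algebra `Λ⁰ ⊕ Λ¹ ⊕ Λ²` of the plane -/
noncomputable def extNorm (A : ℝ × ℝ →L[ℝ] ℝ × ℝ) : ℝ := max 1 (max ‖A‖ |A.det|)

theorem result : ∃ (f g : Torus → Torus) (F G : ℝ × ℝ → ℝ × ℝ), IsLift f F ∧ IsLift g G ∧
    Function.LeftInverse g f ∧ Function.RightInverse g f ∧
    ∀ ρ : Measure Torus, IsProbabilityMeasure ρ → MeasurePreserving f ρ ρ →
      entropy ρ f = 0 ∧ ∃ χ : Torus → ℝ, Integrable χ ρ ∧
        (∀ᵐ x ∂ρ, ∀ p, proj p = x →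
          Tendsto (fun n : ℕ => log (extNorm (fderiv ℝ F^[n] p)) / n) atTop (𝓝 (χ x))) ∧
        log (17 / 16) ≤ ∫ x, χ x ∂ρ := by
  open Pool.Agent.H12 in
  obtain ⟨G, h1, h2, h3⟩ := Cell.exists_inv
  have hl := Function.leftInverse_invFun Cell.f_inj
  have hg : ∀ p, Function.invFun Cell.f (proj p) = proj (G p) := fun p => by
    have := hl (Cell.proj (G p))
    rwa [Cell.f_proj, h3] at this
  refine ⟨Cell.f, Function.invFun Cell.f, Cell.F, G, ⟨Cell.F_smooth, Cell.f_proj⟩, ⟨h1, hg⟩, hl,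
    fun z => ?_, fun ρ _ hρ => ⟨?_, Cell.chi, Cell.bchi.int ρ, ?_, ?_⟩⟩
  · obtain ⟨p, rfl⟩ := Cell.proj_surj z
    exact (congrArg Cell.f (hg p)).trans ((Cell.f_proj _).trans (by rw [h3]))
  · have hfix : ∀ᵐ x ∂ρ, Cell.f x = x := by
      filter_upwards [Cell.ae_fixed hρ] with z hz
      obtain ⟨p, rfl⟩ := Cell.proj_surj z
      rw [Cell.f_proj, hz p rfl]
    simp only [entropy, ENNReal.iSup_eq_zero]
    intro m Q _
    apply Tendsto.limsup_eq
    rw [← ENNReal.ofReal_zero]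
    apply ENNReal.tendsto_ofReal
    apply tendsto_of_tendsto_of_tendsto_of_le_of_le' tendsto_const_nhds
      (tendsto_const_div_atTop_nhds_zero_nat (m : ℝ))
    · exact .of_forall fun n => div_nonneg (Finset.sum_nonneg fun w _ =>
        negMulLog_nonneg measureReal_nonneg measureReal_le_one) (Nat.cast_nonneg _)
    · filter_upwards [eventually_gt_atTop 0] with n hn
      obtain ⟨k, rfl⟩ := Nat.exists_eq_succ_of_ne_zero hn.ne'
      exact div_le_div_of_nonneg_right (Cell.block_le hfix Q k) (Nat.cast_nonneg _)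
  · filter_upwards [Cell.ae_fixed hρ] with z hz p hp
    rw [← hp]
    exact Cell.expo (hz p hp)
  · simpa using integral_mono (integrable_const _) (Cell.bchi.int ρ) Cell.chi_ge

end Pool.Agent.Results.MP_794bd6_an.Counter
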